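import Mathlib

set_option autoImplicit false

/-!
Twisted `PGL_2` over a field with an involutive automorphism `s` and a degree function `d`.
-/

namespace Pool.Agent.N820.TT

open Matrix

/-- The data: a field with an involutive ring endomorphism and an additive, invariant degree. -/
structure Dat (K : Type) [Field K] where
  s : K →+* K
  ss : ∀ x, s (s x) = x
  d : K → ℤ
  dm : ∀ x y, x ≠ 0 → y ≠ 0 → d (x * y) = d x + d y
  ds : ∀ x, d (s x) = d x
  two : ∀ x : K, x + x = 0

variable {K : Type} [Field K] (D : Dat K)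

open Classical in
/-- The field automorphism attached to a determinant. -/
noncomputable def tau (a : K) : K →+* K := if Even (D.d a) then RingHom.id K else D.s

theorem tau_even {a : K} (h : Even (D.d a)) (x : K) : tau D a x = x := by
  simp [tau, h]

theorem tau_odd {a : K} (h : ¬ Even (D.d a)) (x : K) : tau D a x = D.s x := by
  simp [tau, h]

theorem tau_tau (a x : K) : tau D a (tau D a x) = x := by
  by_cases h : Even (D.d a)
  · simp [tau_even D h]
  · simp [tau_odd D h, D.ss]

theorem d_tau (a x : K) : D.d (tau D a x) = D.d x := by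
  by_cases h : Even (D.d a)
  · simp [tau_even D h]
  · simp [tau_odd D h, D.ds]

theorem tau_mul {a b : K} (ha : a ≠ 0) (hb : b ≠ 0) (x : K) :
    tau D (a * b) x = tau D a (tau D b x) := by
  by_cases h : Even (D.d a) <;> by_cases h' : Even (D.d b)
  · have : Even (D.d (a * b)) := by rw [D.dm a b ha hb]; exact h.add h'
    simp [tau_even D h, tau_even D h', tau_even D this]
  · have : ¬ Even (D.d (a * b)) := by
      rw [D.dm a b ha hb, Int.even_add]; simp [h, h']
    simp [tau_even D h, tau_odd D h', tau_odd D this]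
  · have : ¬ Even (D.d (a * b)) := by
      rw [D.dm a b ha hb, Int.even_add]; simp [h, h']
    simp [tau_odd D h, tau_even D h', tau_odd D this]
  · have : Even (D.d (a * b)) := by
      rw [D.dm a b ha hb, Int.even_add]; simp [h, h']
    simp [tau_odd D h, tau_odd D h', tau_even D this, D.ss]

theorem d_one : D.d 1 = 0 := by
  have := D.dm 1 1 one_ne_zero one_ne_zero
  rw [mul_one] at this
  linarith

theorem d_inv {a : K} (ha : a ≠ 0) : D.d a⁻¹ = - D.d a := by
  have := D.dm a a⁻¹ ha (inv_ne_zero ha)
  rw [mul_inv_cancel₀ ha, d_one] at this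
  linarith

theorem tau_congr {a b : K} (h : Even (D.d a) ↔ Even (D.d b)) (x : K) :
    tau D a x = tau D b x := by
  by_cases h' : Even (D.d a)
  · rw [tau_even D h', tau_even D (h.1 h')]
  · rw [tau_odd D h', tau_odd D (fun h'' => h' (h.2 h''))]

theorem tau_injective (a : K) : Function.Injective (tau D a) := (tau D a).injective

/-- The twisted action on vectors. -/
noncomputable def vec (A : Matrix (Fin 2) (Fin 2) K) (v : Fin 2 → K) : Fin 2 → K :=
  A *ᵥ (tau D A.det ∘ v)

theorem map_mulVec (f : K →+* K) (A : Matrix (Fin 2) (Fin 2) K) (v : Fin 2 → K) :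
    f ∘ (A *ᵥ v) = (A.map f) *ᵥ (f ∘ v) := by
  funext i
  exact RingHom.map_mulVec f A v i

theorem det_map (f : K →+* K) (A : Matrix (Fin 2) (Fin 2) K) : (A.map f).det = f A.det := by
  rw [RingHom.map_det]; rfl

theorem vec_mul {A B : Matrix (Fin 2) (Fin 2) K} (hA : A.det ≠ 0) (hB : B.det ≠ 0)
    (v : Fin 2 → K) : vec D (A * B.map (tau D A.det)) v = vec D A (vec D B v) := by
  unfold vec
  have e : ∀ x, tau D (A * B.map (tau D A.det)).det x = tau D A.det (tau D B.det x) := by
    intro x
    rw [← tau_mul D hA hB, Matrix.det_mul, det_map]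
    apply tau_congr
    rw [D.dm _ _ hA hB, D.dm _ _ hA (by simpa using hB), d_tau]
  rw [map_mulVec, Matrix.mulVec_mulVec]
  congr 1
  funext i
  exact e _

theorem vec_one (v : Fin 2 → K) : vec D 1 v = v := by
  unfold vec
  rw [Matrix.det_one, Matrix.one_mulVec]
  funext i
  exact tau_even D (by rw [d_one]; exact Even.zero) _

/-- The inverse. -/
noncomputable def inv (A : Matrix (Fin 2) (Fin 2) K) : Matrix (Fin 2) (Fin 2) K :=
  (A⁻¹).map (tau D A.det)

theorem inv_det {A : Matrix (Fin 2) (Fin 2) K} (hA : A.det ≠ 0) : (inv D A).det ≠ 0 := by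
  unfold inv
  rw [det_map]
  simp [Matrix.det_nonsing_inv, hA]

theorem inv_tau {A : Matrix (Fin 2) (Fin 2) K} (hA : A.det ≠ 0) (x : K) :
    tau D (inv D A).det x = tau D A.det x := by
  apply tau_congr
  unfold inv
  rw [det_map, d_tau, Matrix.det_nonsing_inv, Ring.inverse_eq_inv', d_inv D hA]
  simp

theorem vec_inv_right {A : Matrix (Fin 2) (Fin 2) K} (hA : A.det ≠ 0) (v : Fin 2 → K) :
    vec D A (vec D (inv D A) v) = v := by
  have hu : IsUnit A.det := isUnit_iff_ne_zero.2 hA
  rw [vec, vec, map_mulVec, Matrix.mulVec_mulVec]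
  have e1 : ((inv D A).map (tau D A.det)) = A⁻¹ := by
    ext i j
    simp only [inv, Matrix.map_apply]
    exact tau_tau D _ _
  rw [e1, Matrix.mul_nonsing_inv A hu, Matrix.one_mulVec]
  funext i
  simp only [Function.comp]
  rw [inv_tau D hA]
  exact tau_tau D _ _

theorem vec_inv_left {A : Matrix (Fin 2) (Fin 2) K} (hA : A.det ≠ 0) (v : Fin 2 → K) :
    vec D (inv D A) (vec D A v) = v := by
  have hu : IsUnit A.det := isUnit_iff_ne_zero.2 hA
  rw [vec]
  have e0 : (tau D (inv D A).det ∘ vec D A v) = (tau D A.det ∘ vec D A v) := by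
    funext i; exact inv_tau D hA _
  rw [e0, vec, map_mulVec, Matrix.mulVec_mulVec]
  have e1 : inv D A * A.map (tau D A.det) = 1 := by
    unfold inv
    rw [← Matrix.map_mul, Matrix.nonsing_inv_mul A hu]
    simp
  rw [e1, Matrix.one_mulVec]
  funext i
  exact tau_tau D _ _

theorem vec_add (A : Matrix (Fin 2) (Fin 2) K) (v w : Fin 2 → K) :
    vec D A (v + w) = vec D A v + vec D A w := by
  unfold vec
  rw [← Matrix.mulVec_add]
  congr 1
  funext i
  simp

theorem vec_smul (A : Matrix (Fin 2) (Fin 2) K) (c : K) (v : Fin 2 → K) :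
    vec D A (c • v) = tau D A.det c • vec D A v := by
  unfold vec
  rw [← Matrix.mulVec_smul]
  congr 1
  funext i
  simp

theorem vec_injective {A : Matrix (Fin 2) (Fin 2) K} (hA : A.det ≠ 0) :
    Function.Injective (vec D A) :=
  Function.LeftInverse.injective (vec_inv_left D hA)

theorem vec_ne {A : Matrix (Fin 2) (Fin 2) K} (hA : A.det ≠ 0) {v : Fin 2 → K} (hv : v ≠ 0) :
    vec D A v ≠ 0 := by
  intro h
  have h0 : vec D A 0 = 0 := by
    have := vec_smul D A 0 0
    simpa using this
  exact hv (vec_injective D hA (h.trans h0.symm))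

/-- As a semilinear map. -/
noncomputable def lin (A : Matrix (Fin 2) (Fin 2) K) :
    (Fin 2 → K) →ₛₗ[tau D A.det] (Fin 2 → K) where
  toFun := vec D A
  map_add' := vec_add D A
  map_smul' := vec_smul D A

/-- The map on the projective line. -/
noncomputable def act {A : Matrix (Fin 2) (Fin 2) K} (hA : A.det ≠ 0) :
    Projectivization K (Fin 2 → K) → Projectivization K (Fin 2 → K) :=
  Projectivization.map (lin D A) (vec_injective D hA)

theorem act_mk {A : Matrix (Fin 2) (Fin 2) K} (hA : A.det ≠ 0) (v : Fin 2 → K) (hv : v ≠ 0) :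
    act D hA (Projectivization.mk K v hv) = Projectivization.mk K (vec D A v) (vec_ne D hA hv) :=
  rfl

/-- The permutation of the projective line. -/
noncomputable def perm {A : Matrix (Fin 2) (Fin 2) K} (hA : A.det ≠ 0) :
    Equiv.Perm (Projectivization K (Fin 2 → K)) where
  toFun := act D hA
  invFun := act D (inv_det D hA)
  left_inv := by
    intro x
    induction x using Projectivization.ind with
    | h v hv =>
      rw [act_mk, act_mk]
      congr 1
      exact vec_inv_left D hA v
  right_inv := by
    intro x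
    induction x using Projectivization.ind with
    | h v hv =>
      rw [act_mk, act_mk]
      congr 1
      exact vec_inv_right D hA v

/-- The twisted projective linear group. -/
noncomputable def grp : Subgroup (Equiv.Perm (Projectivization K (Fin 2 → K))) where
  carrier := {π | ∃ (A : Matrix (Fin 2) (Fin 2) K) (hA : A.det ≠ 0), ∀ x, π x = act D hA x}
  one_mem' := by
    refine ⟨1, by simp, ?_⟩
    intro x
    induction x using Projectivization.ind with
    | h v hv =>
      rw [act_mk]
      simp only [Equiv.Perm.one_apply]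
      congr 1
      exact (vec_one D v).symm
  mul_mem' := by
    rintro π₁ π₂ ⟨A, hA, h1⟩ ⟨B, hB, h2⟩
    refine ⟨A * B.map (tau D A.det), ?_, ?_⟩
    · rw [Matrix.det_mul, det_map]
      exact mul_ne_zero hA (by simpa using hB)
    · intro x
      induction x using Projectivization.ind with
      | h v hv =>
        rw [Equiv.Perm.mul_apply, h2, h1, act_mk, act_mk, act_mk]
        congr 1
        exact (vec_mul D hA hB v).symm
  inv_mem' := by
    rintro π ⟨A, hA, h⟩
    refine ⟨inv D A, inv_det D hA, ?_⟩
    intro x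
    rw [Equiv.Perm.inv_eq_iff_eq, h]
    exact ((perm D hA).right_inv x).symm

end Pool.Agent.N820.TT
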