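import Pool.Agent.N820.TT.Final

set_option autoImplicit false

namespace Pool.Agent.N820.TT

open Polynomial

abbrev F2 := ZMod 2

theorem two_F2 : (2 : F2) = 0 := rfl

/-- `p(X) ↦ p(X+1)`. -/
noncomputable def sh : F2[X] →+* F2[X] := Polynomial.compRingHom (X + 1)

theorem sh_apply (p : F2[X]) : sh p = p.comp (X + 1) := rfl

theorem X1_natDegree : ((X : F2[X]) + 1).natDegree = 1 := by
  have := Polynomial.natDegree_X_add_C (1 : F2)
  simpa using this

theorem sh_natDegree (p : F2[X]) : (sh p).natDegree = p.natDegree := by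
  rw [sh_apply, Polynomial.natDegree_comp, X1_natDegree, mul_one]

theorem sh_sh (p : F2[X]) : sh (sh p) = p := by
  rw [sh_apply, sh_apply, Polynomial.comp_assoc]
  have : ((X : F2[X]) + 1).comp (X + 1) = X := by
    rw [Polynomial.add_comp, Polynomial.X_comp, Polynomial.one_comp, add_assoc]
    have h : (1 : F2[X]) + 1 = 0 := by
      rw [← Polynomial.C_1, ← Polynomial.C_add]
      have : (1 : F2) + 1 = 0 := rfl
      rw [this, Polynomial.C_0]
    rw [h, add_zero]
  rw [this, Polynomial.comp_X]

theorem sh_ne {p : F2[X]} (hp : p ≠ 0) : sh p ≠ 0 := by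
  intro h
  apply hp
  rw [← sh_sh p, h, map_zero]

theorem sh_nzd : nonZeroDivisors F2[X] ≤ (nonZeroDivisors F2[X]).comap sh := by
  intro p hp
  rw [Submonoid.mem_comap]
  exact mem_nonZeroDivisors_of_ne_zero (sh_ne (nonZeroDivisors.ne_zero hp))

/-- The induced endomorphism of `F_2(X)`. -/
noncomputable def sg : RatFunc F2 →+* RatFunc F2 := RatFunc.mapRingHom sh sh_nzd

theorem sg_div (p q : F2[X]) :
    sg (algebraMap _ _ p / algebraMap _ _ q) = algebraMap _ _ (sh p) / algebraMap _ _ (sh q) := by
  unfold sg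
  rw [RatFunc.coe_mapRingHom_eq_coe_map]
  exact RatFunc.map_apply_div sh sh_nzd p q

theorem sg_sg (x : RatFunc F2) : sg (sg x) = x := by
  induction x using RatFunc.induction_on with
  | f p q hq => rw [sg_div, sg_div, sh_sh, sh_sh]

theorem sg_deg (x : RatFunc F2) : (sg x).intDegree = x.intDegree := by
  by_cases hx : x = 0
  · rw [hx, map_zero]
  induction x using RatFunc.induction_on with
  | f p q hq =>
    have hp : p ≠ 0 := by
      rintro rfl
      apply hx
      simp
    have h1 : algebraMap F2[X] (RatFunc F2) p ≠ 0 := by simpa using hp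
    have h2 : algebraMap F2[X] (RatFunc F2) q ≠ 0 := by simpa using hq
    have h3 : algebraMap F2[X] (RatFunc F2) (sh p) ≠ 0 := by simpa using sh_ne hp
    have h4 : algebraMap F2[X] (RatFunc F2) (sh q) ≠ 0 := by simpa using sh_ne hq
    rw [sg_div, RatFunc.intDegree_div h1 h2, RatFunc.intDegree_div h3 h4,
      RatFunc.intDegree_polynomial, RatFunc.intDegree_polynomial, RatFunc.intDegree_polynomial,
      RatFunc.intDegree_polynomial, sh_natDegree, sh_natDegree]

/-- The data over `F_2(X)`. -/
noncomputable def dat : Dat (RatFunc F2) where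
  s := sg
  ss := sg_sg
  d := RatFunc.intDegree
  dm := fun x y hx hy => RatFunc.intDegree_mul hx hy
  ds := sg_deg
  two := by
    intro x
    have h : (1 : RatFunc F2) + 1 = 0 := by
      have h2 : (1 : F2) + 1 = 0 := rfl
      have := congrArg (algebraMap F2 (RatFunc F2)) h2
      simpa using this
    calc x + x = (1 + 1) * x := by ring
      _ = 0 := by rw [h, zero_mul]

theorem sg_X : sg (RatFunc.X : RatFunc F2) = RatFunc.X + 1 := by
  have h := sg_div (X : F2[X]) 1
  rw [map_one, div_one, map_one, map_one, div_one] at h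
  rw [← RatFunc.algebraMap_X, h, sh_apply, Polynomial.X_comp, map_add, map_one]

theorem sg_X2 : sg ((RatFunc.X : RatFunc F2) * RatFunc.X) ≠ RatFunc.X * RatFunc.X := by
  rw [map_mul, sg_X]
  intro h
  have h2 := dat.two (RatFunc.X : RatFunc F2)
  have : (1 : RatFunc F2) = 0 := by linear_combination h - h2
  exact one_ne_zero this

end Pool.Agent.N820.TT
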