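import Pool.Agent.N820.TT.Trans

set_option autoImplicit false

namespace Pool.Agent.N820.TT

open Matrix

variable {K : Type} [Field K] (D : Dat K)

/-- The diagonal matrices `diag(a,1)`. -/
noncomputable def dg (a : K) : Matrix (Fin 2) (Fin 2) K := !![a, 0; 0, 1]

theorem dg_det (a : K) : (dg a).det = a := by simp [dg, Matrix.det_fin_two_of]

theorem dg_ne {a : K} (ha : a ≠ 0) : (dg a).det ≠ 0 := by rwa [dg_det]

theorem inv_self {X : Type} (k : Equiv.Perm X) (x : X) : k⁻¹ (k x) = x := k.symm_apply_apply x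

theorem dg_fix0 {a : K} (ha : a ≠ 0) : perm D (dg_ne ha) P0 = P0 := by
  change act D (dg_ne ha) P0 = _
  rw [P0, act_mk]
  apply mk_eq_of_cross
  rw [vec0]
  simp [dg]

theorem dg_fix1 {a : K} (ha : a ≠ 0) : perm D (dg_ne ha) P1 = P1 := by
  change act D (dg_ne ha) P1 = _
  rw [P1, act_mk]
  apply mk_eq_of_cross
  rw [vec1]
  simp [dg]

theorem vec_dg (a x y : K) : vec D (dg a) ![x, y] = ![a * tau D a x, tau D a y] := by
  unfold vec
  rw [dg_det]
  funext i
  fin_cases i <;> simp [Matrix.mulVec, dotProduct, Fin.sum_univ_two, dg]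

theorem dg_noncomm {t b : K} (ht : t ≠ 0) (hb : b ≠ 0) (h1 : ¬ Even (D.d t))
    (h2 : Even (D.d b)) (h3 : D.s b ≠ b) :
    perm D (dg_ne ht) (perm D (dg_ne hb) P2) ≠ perm D (dg_ne hb) (perm D (dg_ne ht) P2) := by
  intro h
  change act D (dg_ne ht) (act D (dg_ne hb) P2) = act D (dg_ne hb) (act D (dg_ne ht) P2) at h
  rw [P2, act_mk, act_mk, act_mk, act_mk] at h
  have hc := cross_zero h
  rw [vec_dg, vec_dg, vec_dg, vec_dg] at hc
  simp only [tau_odd D h1, tau_even D h2] at hc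
  simp only [map_one, mul_one, map_mul, Matrix.cons_val_zero, Matrix.cons_val_one,
    one_mul] at hc
  apply h3
  have : t * (D.s b - b) = 0 := by linear_combination hc
  rcases mul_eq_zero.1 this with h' | h'
  · exact absurd h' ht
  · linear_combination h'

/-- Two elements of `GL_2` with two common eigenlines commute on the projective line. -/
theorem comm_of_common {P : Type} [Field P] (A B : Matrix (Fin 2) (Fin 2) P)
    (p q : Fin 2 → P) (hpq : p 0 * q 1 - p 1 * q 0 ≠ 0)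
    (hA0 : ∃ l : P, l • p = A *ᵥ p) (hA1 : ∃ l : P, l • q = A *ᵥ q)
    (hB0 : ∃ l : P, l • p = B *ᵥ p) (hB1 : ∃ l : P, l • q = B *ᵥ q) (v : Fin 2 → P) :
    A *ᵥ (B *ᵥ v) = B *ᵥ (A *ᵥ v) := by
  obtain ⟨a0, hA0⟩ := hA0
  obtain ⟨a1, hA1⟩ := hA1
  obtain ⟨b0, hB0⟩ := hB0
  obtain ⟨b1, hB1⟩ := hB1
  have hv : v = ((v 0 * q 1 - v 1 * q 0) / (p 0 * q 1 - p 1 * q 0)) • p +
      ((p 0 * v 1 - p 1 * v 0) / (p 0 * q 1 - p 1 * q 0)) • q := by
    funext i
    fin_cases i
    · simp only [Fin.zero_eta, Pi.add_apply, Pi.smul_apply, smul_eq_mul]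
      rw [div_mul_eq_mul_div, div_mul_eq_mul_div, ← add_div, eq_div_iff hpq]
      ring
    · simp only [Fin.mk_one, Pi.add_apply, Pi.smul_apply, smul_eq_mul]
      rw [div_mul_eq_mul_div, div_mul_eq_mul_div, ← add_div, eq_div_iff hpq]
      ring
  rw [hv]
  simp only [Matrix.mulVec_add, Matrix.mulVec_smul, ← hA0, ← hA1, ← hB0, ← hB1]
  congr 1
  · rw [smul_comm a0 b0]
  · rw [smul_comm a1 b1]

theorem not_main_of (D : Dat K) {t b : K} (ht : t ≠ 0) (hb : b ≠ 0) (h1 : ¬ Even (D.d t))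
    (h2 : Even (D.d b)) (h3 : D.s b ≠ b) :
    ¬ (∀ (G X : Type) [Group G] [MulAction G X],
      (∃ a b c : X, a ≠ b ∧ a ≠ c ∧ b ≠ c) →
      (∀ a b c a' b' c' : X, a ≠ b → a ≠ c → b ≠ c → a' ≠ b' → a' ≠ c' → b' ≠ c' →
        ∃ g : G, g • a = a' ∧ g • b = b' ∧ g • c = c') →
      (∀ a b : X, a ≠ b → ∀ g : G, g • a = a → g • b = b → g * g = 1 → g = 1) →
      (∀ a b c : X, a ≠ b → a ≠ c → b ≠ c → ∀ g : G,
        g • a = a → g • b = b → g • c = c → g = 1) →
      ∃ (P : Type) (_ : Field P), CharP P 2 ∧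
        ∃ e : X ≃ Projectivization P (Fin 2 → P),
          ∀ σ : Equiv.Perm (Projectivization P (Fin 2 → P)),
            ((∃ g : G, ∀ x : X, σ (e x) = e (g • x)) ↔
              ∃ A : Matrix.GeneralLinearGroup (Fin 2) P,
                ∀ (v : Fin 2 → P) (hv : v ≠ 0) (w : Fin 2 → P) (hw : w ≠ 0),
                  w = Matrix.mulVec (A : Matrix (Fin 2) (Fin 2) P) v →
                    σ (Projectivization.mk P v hv) = Projectivization.mk P w hw)) := by
  intro H
  have key := H (grp D) (Projectivization K (Fin 2 → K))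
  have sm : ∀ (g : grp D) (x : Projectivization K (Fin 2 → K)), g • x = g.1 x := fun g x => rfl
  obtain ⟨P, iP, -, e, he⟩ := key ⟨P0, P1, P2, P01, P02, P12⟩ (by
      intro a b c a' b' c' hab hac hbc hab' hac' hbc'
      obtain ⟨g, hg, g0, g1, g2⟩ := exists_map D a b c hab hac hbc
      obtain ⟨g', hg', g0', g1', g2'⟩ := exists_map D a' b' c' hab' hac' hbc'
      refine ⟨⟨g' * g⁻¹, (grp D).mul_mem hg' ((grp D).inv_mem hg)⟩, ?_, ?_, ?_⟩
      · rw [sm]
        change g' (g⁻¹ a) = a'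
        rw [← g0, inv_self, g0']
      · rw [sm]
        change g' (g⁻¹ b) = b'
        rw [← g1, inv_self, g1']
      · rw [sm]
        change g' (g⁻¹ c) = c'
        rw [← g2, inv_self, g2'])
    (by
      intro a b hab g ga gb gg
      -- a third point
      obtain ⟨c, hca, hcb⟩ : ∃ c : Projectivization K (Fin 2 → K), a ≠ c ∧ b ≠ c := by
        by_contra hno
        push Not at hno
        have q0 := hno P0
        have q1 := hno P1
        have q2 := hno P2
        by_cases a0 : a = P0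
        · have b1 : b = P1 := q1 (by rw [a0]; exact P01)
          have b2 : b = P2 := q2 (by rw [a0]; exact P02)
          exact P12 (b1.symm.trans b2)
        · have b0 : b = P0 := q0 a0
          by_cases a1 : a = P1
          · have b2 : b = P2 := q2 (by rw [a1]; exact P12)
            exact P02 (b0.symm.trans b2)
          · exact P01 (b0.symm.trans (q1 a1))
      obtain ⟨k, hk, k0, k1, k2⟩ := exists_map D a b c hab hca hcb
      have h := fix2 D (g := k⁻¹ * g.1 * k)
        ((grp D).mul_mem ((grp D).mul_mem ((grp D).inv_mem hk) g.2) hk)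
        (by
          change k⁻¹ (g.1 (k P0)) = P0
          rw [k0, ← sm, ga, ← k0, inv_self])
        (by
          change k⁻¹ (g.1 (k P1)) = P1
          rw [k1, ← sm, gb, ← k1, inv_self])
        (by
          have : g.1 * g.1 = 1 := congrArg Subtype.val gg
          calc k⁻¹ * g.1 * k * (k⁻¹ * g.1 * k) = k⁻¹ * (g.1 * g.1) * k := by group
            _ = 1 := by rw [this]; group)
      apply Subtype.ext
      have : g.1 = k * (k⁻¹ * g.1 * k) * k⁻¹ := by group
      rw [this, h]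
      simp)
    (by
      intro a b c hab hac hbc g ga gb gc
      obtain ⟨k, hk, k0, k1, k2⟩ := exists_map D a b c hab hac hbc
      have h := fix3 D (g := k⁻¹ * g.1 * k)
        ((grp D).mul_mem ((grp D).mul_mem ((grp D).inv_mem hk) g.2) hk)
        (by
          change k⁻¹ (g.1 (k P0)) = P0
          rw [k0, ← sm, ga, ← k0, inv_self])
        (by
          change k⁻¹ (g.1 (k P1)) = P1
          rw [k1, ← sm, gb, ← k1, inv_self])
        (by
          change k⁻¹ (g.1 (k P2)) = P2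
          rw [k2, ← sm, gc, ← k2, inv_self])
      apply Subtype.ext
      have : g.1 = k * (k⁻¹ * g.1 * k) * k⁻¹ := by group
      rw [this, h]
      simp)
  -- the two noncommuting elements of the stabilizer
  have act_of : ∀ g : grp D, ∃ A : Matrix.GeneralLinearGroup (Fin 2) P,
      ∀ (v : Fin 2 → P) (hv : v ≠ 0) (w : Fin 2 → P) (hw : w ≠ 0),
        w = Matrix.mulVec (A : Matrix (Fin 2) (Fin 2) P) v →
          e (g • (e.symm (Projectivization.mk P v hv))) = Projectivization.mk P w hw := by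
    intro g
    have hg := (he (e.permCongr g.1)).1 ⟨g, fun x => by simp [sm]⟩
    obtain ⟨A, hA⟩ := hg
    refine ⟨A, fun v hv w hw hvw => ?_⟩
    rw [← hA v hv w hw hvw]
    simp [sm]
  have mulVec_ne : ∀ (A : Matrix.GeneralLinearGroup (Fin 2) P) (v : Fin 2 → P), v ≠ 0 →
      (A : Matrix (Fin 2) (Fin 2) P) *ᵥ v ≠ 0 := by
    intro A v hv h0
    apply hv
    have : ((A⁻¹ : Matrix.GeneralLinearGroup (Fin 2) P) : Matrix (Fin 2) (Fin 2) P) *ᵥ
        ((A : Matrix (Fin 2) (Fin 2) P) *ᵥ v) = v := by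
      rw [Matrix.mulVec_mulVec, ← Matrix.GeneralLinearGroup.coe_mul, inv_mul_cancel]
      simp
    rw [← this, h0, Matrix.mulVec_zero]
  set g1 : grp D := ⟨perm D (dg_ne ht), mem_perm D _⟩ with hg1
  set g2 : grp D := ⟨perm D (dg_ne hb), mem_perm D _⟩ with hg2
  obtain ⟨A, hA⟩ := act_of g1
  obtain ⟨B, hB⟩ := act_of g2
  have rep : ∀ x : Projectivization K (Fin 2 → K),
      ∃ (v : Fin 2 → P) (hv : v ≠ 0), e x = Projectivization.mk P v hv := by
    intro x
    exact ⟨(e x).rep, (e x).rep_nonzero, ((e x).mk_rep).symm⟩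
  obtain ⟨p, hp, ep⟩ := rep P0
  obtain ⟨q, hq, eq⟩ := rep P1
  obtain ⟨v, hv, ev⟩ := rep P2
  have hpq : p 0 * q 1 - p 1 * q 0 ≠ 0 := by
    intro h0
    have := mk_eq_of_cross (hu := hp) (hv := hq) h0
    rw [← ep, ← eq] at this
    exact P01 (e.injective this)
  have eig : ∀ (g : grp D) (C : Matrix.GeneralLinearGroup (Fin 2) P)
      (_ : ∀ (v : Fin 2 → P) (hv : v ≠ 0) (w : Fin 2 → P) (hw : w ≠ 0),
        w = Matrix.mulVec (C : Matrix (Fin 2) (Fin 2) P) v →
          e (g • (e.symm (Projectivization.mk P v hv))) = Projectivization.mk P w hw)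
      (x : Projectivization K (Fin 2 → K)) (r : Fin 2 → P) (hr : r ≠ 0)
      (_ : e x = Projectivization.mk P r hr) (_ : g • x = x),
      ∃ l : P, l • r = (C : Matrix (Fin 2) (Fin 2) P) *ᵥ r := by
    intro g C hC x r hr hx hgx
    have h := hC r hr _ (mulVec_ne C r hr) rfl
    rw [← hx, Equiv.symm_apply_apply, hgx, hx] at h
    have h' := h.symm
    rw [Projectivization.mk_eq_mk_iff'] at h'
    exact h'
  have cm := comm_of_common (A : Matrix (Fin 2) (Fin 2) P) (B : Matrix (Fin 2) (Fin 2) P) p q hpq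
    (eig g1 A hA P0 p hp ep (dg_fix0 D ht)) (eig g1 A hA P1 q hq eq (dg_fix1 D ht))
    (eig g2 B hB P0 p hp ep (dg_fix0 D hb)) (eig g2 B hB P1 q hq eq (dg_fix1 D hb)) v
  have hAv := hA v hv _ (mulVec_ne A v hv) rfl
  have hBv := hB v hv _ (mulVec_ne B v hv) rfl
  rw [← ev, Equiv.symm_apply_apply] at hAv hBv
  have hAB := hA _ (mulVec_ne B v hv) _ (mulVec_ne A _ (mulVec_ne B v hv)) rfl
  have hBA := hB _ (mulVec_ne A v hv) _ (mulVec_ne B _ (mulVec_ne A v hv)) rfl
  rw [← hBv, Equiv.symm_apply_apply] at hAB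
  rw [← hAv, Equiv.symm_apply_apply] at hBA
  have hfin : e (g1 • (g2 • P2)) = e (g2 • (g1 • P2)) := by
    rw [hAB, hBA]
    congr 1
  exact dg_noncomm D ht hb h1 h2 h3 (e.injective hfin)

end Pool.Agent.N820.TT
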