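import Pool.Agent.N820.TT.Basic

set_option autoImplicit false

namespace Pool.Agent.N820.TT

open Matrix

section Line

variable {F : Type} [Field F]

theorem cross_zero {u v : Fin 2 → F} {hu : u ≠ 0} {hv : v ≠ 0}
    (h : Projectivization.mk F u hu = Projectivization.mk F v hv) :
    u 0 * v 1 - u 1 * v 0 = 0 := by
  rw [Projectivization.mk_eq_mk_iff'] at h
  obtain ⟨a, rfl⟩ := h
  simp only [Pi.smul_apply, smul_eq_mul]
  ring

theorem mk_eq_of_cross {u v : Fin 2 → F} {hu : u ≠ 0} {hv : v ≠ 0}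
    (h : u 0 * v 1 - u 1 * v 0 = 0) :
    Projectivization.mk F u hu = Projectivization.mk F v hv := by
  rw [Projectivization.mk_eq_mk_iff']
  by_cases h0 : v 0 = 0
  · have h1 : v 1 ≠ 0 := by
      intro h1
      apply hv
      funext i
      fin_cases i
      · exact h0
      · exact h1
    refine ⟨u 1 / v 1, ?_⟩
    funext i
    fin_cases i
    · simp only [Fin.zero_eta, Pi.smul_apply, smul_eq_mul]
      rw [h0] at h ⊢
      have : u 0 * v 1 = 0 := by linear_combination h
      rcases mul_eq_zero.1 this with h' | h'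
      · rw [h', mul_zero]
      · exact absurd h' h1
    · simp only [Fin.mk_one, Pi.smul_apply, smul_eq_mul]
      field_simp
  · refine ⟨u 0 / v 0, ?_⟩
    funext i
    fin_cases i
    · simp only [Fin.zero_eta, Pi.smul_apply, smul_eq_mul]
      field_simp
    · simp only [Fin.mk_one, Pi.smul_apply, smul_eq_mul]
      field_simp
      linear_combination h

end Line

variable {K : Type} [Field K] (D : Dat K)

theorem ne0 : (![1, 0] : Fin 2 → K) ≠ 0 := by
  intro h; have := congrFun h 0; simp at this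

theorem ne1 : (![0, 1] : Fin 2 → K) ≠ 0 := by
  intro h; have := congrFun h 1; simp at this

theorem ne2 : (![1, 1] : Fin 2 → K) ≠ 0 := by
  intro h; have := congrFun h 0; simp at this

/-- The point `∞`. -/
noncomputable def P0 : Projectivization K (Fin 2 → K) := Projectivization.mk K ![1, 0] ne0
/-- The point `0`. -/
noncomputable def P1 : Projectivization K (Fin 2 → K) := Projectivization.mk K ![0, 1] ne1
/-- The point `1`. -/
noncomputable def P2 : Projectivization K (Fin 2 → K) := Projectivization.mk K ![1, 1] ne2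

theorem P01 : (P0 : Projectivization K (Fin 2 → K)) ≠ P1 := by
  intro h; have := cross_zero h; simp at this

theorem P02 : (P0 : Projectivization K (Fin 2 → K)) ≠ P2 := by
  intro h; have := cross_zero h; simp at this

theorem P12 : (P1 : Projectivization K (Fin 2 → K)) ≠ P2 := by
  intro h; have := cross_zero h; simp at this

theorem vec0 (A : Matrix (Fin 2) (Fin 2) K) : vec D A ![1, 0] = ![A 0 0, A 1 0] := by
  unfold vec
  funext i
  fin_cases i <;> simp [Matrix.mulVec, dotProduct, Fin.sum_univ_two]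

theorem vec1 (A : Matrix (Fin 2) (Fin 2) K) : vec D A ![0, 1] = ![A 0 1, A 1 1] := by
  unfold vec
  funext i
  fin_cases i <;> simp [Matrix.mulVec, dotProduct, Fin.sum_univ_two]

theorem vec2 (A : Matrix (Fin 2) (Fin 2) K) :
    vec D A ![1, 1] = ![A 0 0 + A 0 1, A 1 0 + A 1 1] := by
  unfold vec
  funext i
  fin_cases i <;> simp [Matrix.mulVec, dotProduct, Fin.sum_univ_two]

theorem mem_perm {A : Matrix (Fin 2) (Fin 2) K} (hA : A.det ≠ 0) : perm D hA ∈ grp D :=
  ⟨A, hA, fun _ => rfl⟩

theorem exists_map (a b c : Projectivization K (Fin 2 → K)) (hab : a ≠ b) (hac : a ≠ c)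
    (hbc : b ≠ c) : ∃ g ∈ grp D, g P0 = a ∧ g P1 = b ∧ g P2 = c := by
  induction a using Projectivization.ind with
  | h u hu =>
  induction b using Projectivization.ind with
  | h v hv =>
  induction c using Projectivization.ind with
  | h w hw =>
  have h1 : u 0 * v 1 - u 1 * v 0 ≠ 0 := fun h => hab (mk_eq_of_cross h)
  have h2 : u 0 * w 1 - u 1 * w 0 ≠ 0 := fun h => hac (mk_eq_of_cross h)
  have h3 : v 0 * w 1 - v 1 * w 0 ≠ 0 := fun h => hbc (mk_eq_of_cross h)
  set A : Matrix (Fin 2) (Fin 2) K :=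
    !![(v 0 * w 1 - v 1 * w 0) * u 0, -(u 0 * w 1 - u 1 * w 0) * v 0;
       (v 0 * w 1 - v 1 * w 0) * u 1, -(u 0 * w 1 - u 1 * w 0) * v 1] with hAdef
  have hA : A.det ≠ 0 := by
    rw [hAdef, Matrix.det_fin_two_of]
    have : (v 0 * w 1 - v 1 * w 0) * u 0 * (-(u 0 * w 1 - u 1 * w 0) * v 1) -
        -(u 0 * w 1 - u 1 * w 0) * v 0 * ((v 0 * w 1 - v 1 * w 0) * u 1) =
        -((v 0 * w 1 - v 1 * w 0) * (u 0 * w 1 - u 1 * w 0) * (u 0 * v 1 - u 1 * v 0)) := by ring
    rw [this]
    exact neg_ne_zero.2 (mul_ne_zero (mul_ne_zero h3 h2) h1)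
  refine ⟨perm D hA, mem_perm D hA, ?_, ?_, ?_⟩
  · change act D hA P0 = _
    rw [P0, act_mk]
    apply mk_eq_of_cross
    rw [vec0]
    simp only [hAdef, Matrix.of_apply, Matrix.cons_val', Matrix.cons_val_zero, Matrix.cons_val_one,
      Matrix.cons_val_fin_one]
    ring
  · change act D hA P1 = _
    rw [P1, act_mk]
    apply mk_eq_of_cross
    rw [vec1]
    simp only [hAdef, Matrix.of_apply, Matrix.cons_val', Matrix.cons_val_zero, Matrix.cons_val_one,
      Matrix.cons_val_fin_one]
    ring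
  · change act D hA P2 = _
    rw [P2, act_mk]
    apply mk_eq_of_cross
    rw [vec2]
    simp only [hAdef, Matrix.of_apply, Matrix.cons_val', Matrix.cons_val_zero, Matrix.cons_val_one,
      Matrix.cons_val_fin_one]
    ring

/-- An element of the group fixing `∞` and `0` is diagonal. -/
theorem diag_of_fix {g : Equiv.Perm (Projectivization K (Fin 2 → K))} (hg : g ∈ grp D)
    (h0 : g P0 = P0) (h1 : g P1 = P1) :
    ∃ (A : Matrix (Fin 2) (Fin 2) K) (hA : A.det ≠ 0), (∀ x, g x = act D hA x) ∧
      A 1 0 = 0 ∧ A 0 1 = 0 := by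
  obtain ⟨A, hA, h⟩ := hg
  refine ⟨A, hA, h, ?_, ?_⟩
  · rw [h, P0, act_mk] at h0
    have := cross_zero h0
    rw [vec0] at this
    simpa using this
  · rw [h, P1, act_mk] at h1
    have := cross_zero h1
    rw [vec1] at this
    simpa using this

theorem eq_one_of_scalar {g : Equiv.Perm (Projectivization K (Fin 2 → K))}
    {A : Matrix (Fin 2) (Fin 2) K} (hA : A.det ≠ 0) (h : ∀ x, g x = act D hA x)
    (h10 : A 1 0 = 0) (h01 : A 0 1 = 0) (hs : A 0 0 = A 1 1) : g = 1 := by
  have hdet : A.det = A 0 0 * A 0 0 := by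
    rw [Matrix.det_fin_two, h10, h01, ← hs]; ring
  have h00 : A 0 0 ≠ 0 := by
    intro h0; apply hA; rw [hdet, h0, mul_zero]
  have hev : Even (D.d A.det) := by
    rw [hdet, D.dm _ _ h00 h00]; exact ⟨_, rfl⟩
  apply Equiv.ext
  intro x
  rw [h, Equiv.Perm.one_apply]
  induction x using Projectivization.ind with
  | h v hv =>
    rw [act_mk]
    apply mk_eq_of_cross
    have e0 : vec D A v 0 = A 0 0 * v 0 := by
      simp [vec, Matrix.mulVec, dotProduct, Fin.sum_univ_two, h01, tau_even D hev]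
    have e1 : vec D A v 1 = A 0 0 * v 1 := by
      simp [vec, Matrix.mulVec, dotProduct, Fin.sum_univ_two, h10, ← hs, tau_even D hev]
    rw [e0, e1]
    ring

theorem fix3 {g : Equiv.Perm (Projectivization K (Fin 2 → K))} (hg : g ∈ grp D)
    (h0 : g P0 = P0) (h1 : g P1 = P1) (h2 : g P2 = P2) : g = 1 := by
  obtain ⟨A, hA, h, h10, h01⟩ := diag_of_fix D hg h0 h1
  apply eq_one_of_scalar D hA h h10 h01
  rw [h, P2, act_mk] at h2
  have := cross_zero h2
  rw [vec2] at this
  simp only [h10, h01] at this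
  simp at this
  linear_combination this

theorem fix2 {g : Equiv.Perm (Projectivization K (Fin 2 → K))} (hg : g ∈ grp D)
    (h0 : g P0 = P0) (h1 : g P1 = P1) (h2 : g * g = 1) : g = 1 := by
  obtain ⟨A, hA, h, h10, h01⟩ := diag_of_fix D hg h0 h1
  apply eq_one_of_scalar D hA h h10 h01
  have hdet : A.det = A 0 0 * A 1 1 := by
    rw [Matrix.det_fin_two, h10, h01]; ring
  have h00 : A 0 0 ≠ 0 := by
    intro h0; apply hA; rw [hdet, h0, zero_mul]
  have h11 : A 1 1 ≠ 0 := by
    intro h0; apply hA; rw [hdet, h0, mul_zero]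
  have hP : g (g P2) = P2 := by
    have := congrArg (fun f => f P2) h2
    simpa using this
  rw [h, h, P2, act_mk, act_mk] at hP
  have hc := cross_zero hP
  rw [vec2] at hc
  simp only [h10, h01] at hc
  have e0 : ∀ x y : K, vec D A ![x, y] = ![A 0 0 * tau D A.det x, A 1 1 * tau D A.det y] := by
    intro x y
    funext i
    fin_cases i <;> simp [vec, Matrix.mulVec, dotProduct, Fin.sum_univ_two, h01, h10]
  rw [e0] at hc
  simp only [add_zero, zero_add, Matrix.cons_val_zero, Matrix.cons_val_one, mul_one] at hc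
  by_cases hev : Even (D.d A.det)
  · rw [tau_even D hev, tau_even D hev] at hc
    have h4 : (A 0 0 - A 1 1) * (A 0 0 - A 1 1) = 0 := by
      have t1 := D.two (A 0 0 * A 1 1)
      have t2 := D.two (A 1 1 * A 1 1)
      linear_combination hc - t1 + t2
    have := mul_self_eq_zero.1 h4
    linear_combination this
  · exfalso
    rw [tau_odd D hev, tau_odd D hev] at hc
    have h5 : A 0 0 * D.s (A 0 0) = A 1 1 * D.s (A 1 1) := by linear_combination hc
    have h6 := congrArg D.d h5
    have s0 : D.s (A 0 0) ≠ 0 := by simpa using h00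
    have s1 : D.s (A 1 1) ≠ 0 := by simpa using h11
    rw [D.dm _ _ h00 s0, D.dm _ _ h11 s1, D.ds, D.ds] at h6
    apply hev
    rw [hdet, D.dm _ _ h00 h11]
    have : D.d (A 0 0) = D.d (A 1 1) := by linarith
    rw [this]
    exact ⟨_, rfl⟩

end Pool.Agent.N820.TT
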